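import Pool.Agent.H68.QC.Targets

/-!
# The step from level `0` to level `1` for a family of questions
-/

set_option autoImplicit false

namespace Pool.Agent.H48.QC

open Finset Pool.Agent.H68.QC Pool.Agent.H70.OQ Pool.Agent.H70.RK Pool.Agent.H6.NB

theorem pf_ST0 (hGS0 : T_GS0) (hRDF : T_RDF) : T_ST0 := by
  intro X Y _ _ _ _ _ Φ1 Φ0 b K m0 m t w r t' G' q ht htw hq hwq htt hΦ1 hΦ0 hG hm hbad
  have hw : (1 : ℝ) ≤ w := by exact_mod_cast ht.trans htw
  have hq1 : q ≤ 1 := by nlinarith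
  have hcard : 1 ≤ G' * Fintype.card (Node X Y 0) := by
    have h1 : 0 < Fintype.card (Node X Y 0) := by
      have : Nonempty (Node X Y 0) := inferInstanceAs (Nonempty X)
      exact Fintype.card_pos
    exact Nat.mul_pos hG h1
  refine hGS0 X Y b K m0 (G' * Fintype.card (Node X Y 0)) q (erho m t w r)
    (Fam (Node X Y 0) Φ1 Φ0 t' r) (Fam (Node X Y 1) Φ1 Φ0 t (r + 1)) hq.le hq1 hcard hm hbad ?_
  intro L V1 V0 hV hL
  exact hRDF (Node X Y 0) (Y 0) Φ1 Φ0 m t w r t' q L V1 V0 ht htw hq hwq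
    (fun a => (Nat.le_mul_of_pos_left _ hG).trans (hL a)) htt hΦ1 hΦ0 hV

end Pool.Agent.H48.QC
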